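import Mathlib
import Pool.Agent.Work.MP_5e5ff1_ag.Bd.B10

/-! # Interlacing inequalities forced by vanishing p-curvatures

Let `e (0, ·)`, `e (1, ·)`, `e (2, ·)` be the (rational) eigenvalues of the residues
`b / n`, `c / n`, `- (b + c) / n` of a system of rank `r` on the line minus `0, 1, ∞` over a number
field, with common denominator `N`. If the p-curvature vanishes at infinitely many primes whose
residue characteristic is congruent to `a` modulo `N`, and `u a = 1` modulo `N`, then the numbers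
`u e (i, j)` satisfy the inequalities
`r ≤ ∑ fract (x i - u e (i, j)) ≤ 2 r` for all real `x 0 + x 1 + x 2 = 0` off the walls. -/

open Polynomial Matrix NumberField

namespace Pool.Agent.Results.MP_5e5ff1_ag.ExponentInequality

open Pool.Agent.Work.MP_5e5ff1_ag

theorem result (K : Type) [Field K] [NumberField K] (r n N : ℕ) (hn : 0 < n) (hN : 0 < N)
    (b c : Matrix (Fin r) (Fin r) (𝓞 K)) (e : Fin 3 × Fin r → ℚ)
    (he : ∀ i, ∃ s : ℤ, e i = s / N) (hexp : IsExponents n b c e) (a : ℕ) (u : ℤ)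
    (hu : (N : ℤ) ∣ u * a - 1)
    (hinf : {P : Ideal (𝓞 K) | P.IsMaximal ∧ ringChar (𝓞 K ⧸ P) ≡ a [MOD N] ∧
      PCurvZero n b c P}.Infinite)
    (x : Fin 3 → ℝ) (hx : x 0 + x 1 + x 2 = 0)
    (hgen : ∀ i : Fin 3 × Fin r, Int.fract (x i.1 - u * ((e i : ℚ) : ℝ)) ≠ 0) :
    (NoCommonEigenvector (b.map (algebraMap (𝓞 K) K)) (c.map (algebraMap (𝓞 K) K)) →
      (r : ℝ) ≤ ∑ i : Fin 3 × Fin r, Int.fract (x i.1 - u * ((e i : ℚ) : ℝ))) ∧
    (NoCommonEigenvector (b.map (algebraMap (𝓞 K) K))ᵀ (c.map (algebraMap (𝓞 K) K))ᵀ →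
      ∑ i : Fin 3 × Fin r, Int.fract (x i.1 - u * ((e i : ℚ) : ℝ)) ≤ 2 * r) :=
  inequality hn hN he hexp hu hinf x hx hgen

end Pool.Agent.Results.MP_5e5ff1_ag.ExponentInequality
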