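import Mathlib
import Pool.Agent.Work.MP_5e5ff1_ag.A.Main

/-! # The parabolic companion of a system with vanishing p-curvatures

Let `f' = (b/n / t + c/n / (t-1)) f` be a system of rank `r` over a number field `K` with rational
exponents `e (i, j)` (the eigenvalues of the residues `b / n`, `c / n`, `- (b + c) / n` at
`0, 1, ∞`) with common denominator `N`, and let `u a = 1` modulo `N`. Assume that the p-curvature
vanishes at infinitely many primes whose residue characteristic is congruent to `a` modulo `N`.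

Then, for every embedding of `K` in `ℂ`, there are a parabolic bundle `E` of rank `r` on the
projective line with the points `0, 1, ∞`, whose weights are congruent to `- u e (i, j)` modulo one,
and an automorphism `Φ` of the field `ℂ`, such that the subbundles of parabolic degree zero of all
the tensor powers `(1 ⊕ E)^{⊗ m}` correspond, fibre by fibre, to the subsystems of the tensor powers
of the system, and all these tensor powers are semistable of degree zero. The system is irreducible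
if and only if `E` is stable, and it has a full set of algebraic solutions if and only if `E` is
finite. -/

open Polynomial Matrix NumberField

namespace Pool.Agent.Results.MP_5e5ff1_ag.ParabolicCompanion

open Pool.Agent.Work.MP_5e5ff1_ag Pool.Agent.Work.MP_5e5ff1_ag.T Pool.Agent.Work.MP_5e5ff1_ag.A

theorem result (K : Type) [Field K] [NumberField K] (σ : K →+* ℂ) (r n N : ℕ) (hn : 0 < n)
    (hN : 0 < N) (b c : Matrix (Fin r) (Fin r) (𝓞 K)) (e : Fin 3 × Fin r → ℚ)
    (he : ∀ i, ∃ s : ℤ, e i = s / N) (hexp : IsExponents n b c e) (a : ℕ) (u : ℤ)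
    (hu : (N : ℤ) ∣ u * a - 1)
    (hinf : {P : Ideal (𝓞 K) | P.IsMaximal ∧ ringChar (𝓞 K ⧸ P) ≡ a [MOD N] ∧
      PCurvZero n b c P}.Infinite)
    (B C : Matrix (Fin r) (Fin r) ℂ) (hB : ∀ i j, B i j = σ (b i j : K) / n)
    (hC : ∀ i j, C i j = σ (c i j : K) / n) :
    ∃ (Φ : ℂ ≃+* ℂ) (g₀ g₁ : Matrix (Fin r) (Fin r) ℂ) (w : Fin 3 × Fin r → ℝ),
      (∀ ζ : ℂ, ζ ^ N = 1 → Φ ζ = ζ ^ a) ∧
      g₀.det ≠ 0 ∧ g₁.det ≠ 0 ∧
      (∀ i, ∃ z : ℤ, w i + u * ((e i : ℚ) : ℝ) = z) ∧
      (∀ j, 0 ≤ w (0, j) ∧ w (0, j) ≤ 1 ∧ 0 ≤ w (1, j) ∧ w (1, j) ≤ 1) ∧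
      (∀ m : ℕ, Semistable (tens m g₀) (tens m g₁) (tensWeight m w)) ∧
      Semistable g₀ g₁ w ∧ (IrreducibleSystem B C ↔ Stable g₀ g₁ w) ∧
      (∀ x : ℂ, x ≠ 0 → x ≠ 1 → ∃ γ : Matrix (Fin r) (Fin r) ℂ, γ.det ≠ 0 ∧ ∀ m : ℕ,
        connFibres (tensAdd m B) (tensAdd m C) x
          = Submodule.map (tens m γ).mulVecLin ''
            parFibres (tens m g₀) (tens m g₁) (tensWeight m w) (Φ x)) ∧
      ∀ y : ℂ, y ≠ 0 → y ≠ 1 → (HasAlgebraicSolutions B C ↔ FiniteBundle g₀ g₁ w y) := by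
  have hB' : (n : ℂ)⁻¹ • b.map (fun x => σ (algebraMap (𝓞 K) K x)) = B := by
    ext1 i j
    rw [Matrix.smul_apply, map_apply, hB, smul_eq_mul, div_eq_inv_mul]
  have hC' : (n : ℂ)⁻¹ • c.map (fun x => σ (algebraMap (𝓞 K) K x)) = C := by
    ext1 i j
    rw [Matrix.smul_apply, map_apply, hC, smul_eq_mul, div_eq_inv_mul]
  have h := main_theorem σ hn hN he hexp hu hinf
  rw [hB', hC'] at h
  obtain ⟨Φ, g₀, g₁, w, h1, h2, h3, h4, h5, h6, h7, h8, h9⟩ := h
  exact ⟨Φ, g₀, g₁, w, h1, h2, h3, h4, h5, h8, h6, h7, h9, fun y hy0 hy1 => finite_iff h9 hy0 hy1⟩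

end Pool.Agent.Results.MP_5e5ff1_ag.ParabolicCompanion
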