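import Mathlib
import Pool.Agent.Work.MP_5e5ff1_ag.Bd.B05

/-! # The torsion cosets of the exponents of systems with vanishing p-curvatures

For every rank `r` there is a finite list `L` of torsion cosets `T` in the space of `3 r` real
exponents modulo one, such that every point of `T`, and its negative, is the family of the weights
modulo one of a semistable parabolic bundle of degree zero on the projective line with the points
`0, 1, ∞`, and such that every system over a number field with rational exponents `e` (common
denominator `N`) has `e` in one of them, or there is a residue class `a` prime to `N` such that the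
p-curvature vanishes at finitely many, and does not vanish at infinitely many, of the primes of
residue characteristic congruent to `a` modulo `N`. Moreover, if the p-curvature vanishes at
infinitely many primes of the class `a`, and `u a = 1` modulo `N`, then `u e` and `- u e` are the
weights modulo one of semistable parabolic bundles, and the interlacing inequalities hold. -/

open Polynomial Matrix NumberField

namespace Pool.Agent.Results.MP_5e5ff1_ag.SemistableCosets

open Pool.Agent.Work.MP_5e5ff1_ag Pool.Agent.Work.MP_5e5ff1_ag.S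

theorem result (r : ℕ) (hr : 0 < r) :
    ∃ L : Finset (Finset ((Fin 3 × Fin r → ℤ) × ℚ)),
      (∀ T ∈ L, (∃ w : Fin 3 × Fin r → ℝ, Solves T w) ∧
        (∀ w : Fin 3 × Fin r → ℝ, Solves T w →
          SemistableWeights w ∧ SemistableWeights (fun i => -w i) ∧ Interlacing w) ∧
        r ≤ relRank T ∧
        ∀ a : Fin 3, (∃ e ∈ T, ∃ j j' : Fin r, e.1 (a, j) ≠ e.1 (a, j')) ∨
          ∀ b : Fin 3, a ≠ b → ∀ w : Fin 3 × Fin r → ℝ, Solves T w →
            EvenlySpaced (fun j => w (b, j))) ∧
      ∀ (K : Type) [Field K] [NumberField K] (n N : ℕ) (b c : Matrix (Fin r) (Fin r) (𝓞 K))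
        (e : Fin 3 × Fin r → ℚ), 0 < n → 0 < N → (∀ i, ∃ s : ℤ, e i = s / N) →
        IsExponents n b c e →
        (∀ (a : ℕ) (u : ℤ), (N : ℤ) ∣ u * a - 1 →
          {P : Ideal (𝓞 K) | P.IsMaximal ∧ ringChar (𝓞 K ⧸ P) ≡ a [MOD N] ∧
            PCurvZero n b c P}.Infinite →
          SemistableWeights (fun i => (u : ℝ) * ((e i : ℚ) : ℝ)) ∧
            SemistableWeights (fun i => -((u : ℝ) * ((e i : ℚ) : ℝ))) ∧
            Interlacing (fun i => (u : ℝ) * ((e i : ℚ) : ℝ))) ∧
        ((∃ T ∈ L, Solves T (fun i => ((e i : ℚ) : ℝ))) ∨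
        ∃ a : ℕ, a.Coprime N ∧
          {P : Ideal (𝓞 K) | P.IsMaximal ∧ ringChar (𝓞 K ⧸ P) ≡ a [MOD N] ∧
            PCurvZero n b c P}.Finite ∧
          {P : Ideal (𝓞 K) | P.IsMaximal ∧ ringChar (𝓞 K ⧸ P) ≡ a [MOD N] ∧
            ¬ PCurvZero n b c P}.Infinite) :=
  structure_thm' r hr

end Pool.Agent.Results.MP_5e5ff1_ag.SemistableCosets
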