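import Mathlib
import Pool.Agent.Work.MP_5e5ff1_ag.Bd.B10

/-! # Exponents of systems on the thrice punctured line with vanishing p-curvatures

Let `e (0, ·)`, `e (1, ·)`, `e (2, ·)` be the (rational) eigenvalues of the residues
`b / n`, `c / n`, `- (b + c) / n` of a system of rank `r` on the line minus `0, 1, ∞` over a number
field, and assume that `b, c` have no common eigenvector.

There is a finite list, depending only on `r`, of torsion cosets of the exponent torus, all of
whose real points satisfy the interlacing inequalities, all of dimension at most `2 r`, such that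
either the exponents lie in one of the listed cosets, or the p-curvature is different from zero at
all but finitely many primes whose residue characteristic lies in a suitable residue class. -/

open Polynomial Matrix NumberField

namespace Pool.Agent.Results.MP_5e5ff1_ag.TorsionCosets

open Pool.Agent.Work.MP_5e5ff1_ag

theorem result (r : ℕ) (hr : 0 < r) :
    ∃ L : Finset (Finset ((Fin 3 × Fin r → ℤ) × ℚ)),
      (∀ T ∈ L, (∃ w : Fin 3 × Fin r → ℝ, Solves T w) ∧
        (∀ w : Fin 3 × Fin r → ℝ, Solves T w → Interlacing w) ∧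
        r ≤ relRank T ∧
        ∀ a : Fin 3, (∃ e ∈ T, ∃ j j' : Fin r, e.1 (a, j) ≠ e.1 (a, j')) ∨
          ∀ b : Fin 3, a ≠ b → ∀ w : Fin 3 × Fin r → ℝ, Solves T w →
            EvenlySpaced (fun j => w (b, j))) ∧
      ∀ (K : Type) [Field K] [NumberField K] (n N : ℕ) (b c : Matrix (Fin r) (Fin r) (𝓞 K))
        (e : Fin 3 × Fin r → ℚ), 0 < n → 0 < N → (∀ i, ∃ s : ℤ, e i = s / N) →
        IsExponents n b c e →
        NoCommonEigenvector (b.map (algebraMap (𝓞 K) K)) (c.map (algebraMap (𝓞 K) K)) →
        (∃ T ∈ L, Solves T (fun i => ((e i : ℚ) : ℝ))) ∨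
        ∃ a : ℕ, a.Coprime N ∧
          {P : Ideal (𝓞 K) | P.IsMaximal ∧ ringChar (𝓞 K ⧸ P) ≡ a [MOD N] ∧
            PCurvZero n b c P}.Finite ∧
          {P : Ideal (𝓞 K) | P.IsMaximal ∧ ringChar (𝓞 K ⧸ P) ≡ a [MOD N] ∧
            ¬ PCurvZero n b c P}.Infinite :=
  structure_thm r hr

end Pool.Agent.Results.MP_5e5ff1_ag.TorsionCosets
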